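import Pool.Agent.Helper51.CX.St
import Pool.Agent.Helper62.CX.Rank

set_option autoImplicit false

/-!
Project CX, module RA: the rank argument for the first step.
-/

namespace Pool.Agent.Helper16.CX

open Module Pool.Agent.Helper51.CX

section

variable {K : Type} [Field K]

open Classical in
/-- one of two forms: the first one if it vanishes on `d` -/
noncomputable def pick (A B : Dual K (Fin 6 → K)) (d : Fin 6 → K) : Dual K (Fin 6 → K) :=
  if A d = 0 then A else B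

theorem pick_l (A B : Dual K (Fin 6 → K)) (d x : Fin 6 → K) (h : A d = 0) (hx : pick A B d x = 0) : A x = 0 := by
  unfold pick at hx
  rwa [if_pos h] at hx

theorem pick_r (A B : Dual K (Fin 6 → K)) (d x : Fin 6 → K) (hne : ¬ (A d = 0 ∧ B d = 0)) (h : B d = 0)
    (hx : pick A B d x = 0) : B x = 0 := by
  unfold pick at hx
  rwa [if_neg (fun h0 => hne ⟨h0, h⟩)] at hx

end

section

variable {K : Type} [Field K] [LinearOrder K] [IsStrictOrderedRing K]

/-- the rows have trivial common kernel -/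
theorem cc_ker (x : Fin 6 → K) (h : ∀ k, cc K k x = 0) : x = 0 := by
  obtain ⟨-, h0, h1, h2, h3, h4, h5, h6, h7, h8, h9⟩ := (forall_rows (K := K) (fun c _ => c x = 0)).1 h
  rw [RX_apply] at h0 h1
  rw [RY_apply] at h2 h3
  rw [RZ_apply] at h4 h5 h6 h7 h8 h9
  have e5 : x 5 = 0 := by linarith
  have e0 : x 0 = 0 := by linarith
  have e2 : x 2 = 0 := by linarith
  have e3 : x 3 = 0 := by linarith
  have e4 : x 4 = 0 := by linarith
  have e1 : x 1 = 0 := by linarith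
  funext i
  fin_cases i
  · exact e0
  · exact e1
  · exact e2
  · exact e3
  · exact e4
  · exact e5

/-- the rank argument with four forms -/
theorem ra_core (d : Fin 6 → K) (hc : Pool.Agent.Helper4.CD.IsCircuit (cc K) d)
    (L' : Fin 4 → Dual K (Fin 6 → K))
    (h : ∀ k, cc K k d = 0 → ∀ x, (∀ j, L' j x = 0) → cc K k x = 0) : False := by
  refine Pool.Agent.Helper62.CX.rank_lemma (cc K) d hc cc_ker 4 L' ?_ h
  simp

/-- four pairs -/
theorem ra_four (d : Fin 6 → K) (hc : Pool.Agent.Helper4.CD.IsCircuit (cc K) d)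
    (hL : ∀ k < 64, L k d ≠ 0) (A B : Fin 5 → Dual K (Fin 6 → K))
    (hrow : ∀ n, (∀ k < 64, cc K n ≠ VR K k) → ∃ i, cc K n = A i ∨ cc K n = B i)
    (hAB : ∀ i, ¬ (A i d = 0 ∧ B i d = 0)) (i0 : Fin 5) (hA : A i0 d ≠ 0) (hB : B i0 d ≠ 0) : False := by
  refine ra_core d hc (fun j => pick (A (i0.succAbove j)) (B (i0.succAbove j)) d) ?_
  intro n hn x hx
  have h1 : ∀ k < 64, cc K n ≠ VR K k := by
    intro k hk h0
    rw [h0, VR_apply] at hn
    exact hL k hk (neg_eq_zero.1 hn)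
  obtain ⟨i, hi⟩ := hrow n h1
  have hne : i ≠ i0 := by
    rintro rfl
    rcases hi with hi | hi
    · exact hA (by rw [← hi]; exact hn)
    · exact hB (by rw [← hi]; exact hn)
  obtain ⟨j, rfl⟩ := Fin.exists_succAbove_eq hne
  rcases hi with hi | hi
  · rw [hi] at hn ⊢
    exact pick_l _ _ d x hn (hx j)
  · rw [hi] at hn ⊢
    exact pick_r _ _ d x (hAB _) hn (hx j)

/-- the first rows of the pairs -/
def PA : Fin 5 → Dual K (Fin 6 → K) := ![RX 1, RY 1, RZ 2 1, RZ 3 1, RZ 4 1]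

/-- the second rows of the pairs -/
def PB : Fin 5 → Dual K (Fin 6 → K) := ![RX (-1), RY (-1), RZ 2 (-1), RZ 3 (-1), RZ 4 (-1)]

theorem ra_rows : ∀ n, (∀ k < 64, cc K n ≠ VR K k) → ∃ i, cc K n = PA i ∨ cc K n = PB i := by
  refine (forall_rows (K := K) (fun c _ => (∀ k < 64, c ≠ VR K k) → ∃ i, c = PA i ∨ c = PB i)).2
    ⟨?_, ?_, ?_, ?_, ?_, ?_, ?_, ?_, ?_, ?_, ?_⟩
  · intro k hk h
    exact absurd rfl (h k hk)
  · exact fun _ => ⟨0, Or.inl rfl⟩
  · exact fun _ => ⟨0, Or.inr rfl⟩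
  · exact fun _ => ⟨1, Or.inl rfl⟩
  · exact fun _ => ⟨1, Or.inr rfl⟩
  · exact fun _ => ⟨2, Or.inl rfl⟩
  · exact fun _ => ⟨2, Or.inr rfl⟩
  · exact fun _ => ⟨3, Or.inl rfl⟩
  · exact fun _ => ⟨3, Or.inr rfl⟩
  · exact fun _ => ⟨4, Or.inl rfl⟩
  · exact fun _ => ⟨4, Or.inr rfl⟩

theorem ra_ne (d : Fin 6 → K) (h5 : d 5 ≠ 0) (i : Fin 5) : ¬ (PA (K := K) i d = 0 ∧ PB (K := K) i d = 0) := by
  rintro ⟨h1, h2⟩
  apply h5
  fin_cases i
  · change RX 1 d = 0 at h1
    change RX (-1) d = 0 at h2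
    rw [RX_apply] at h1 h2
    linarith
  · change RY 1 d = 0 at h1
    change RY (-1) d = 0 at h2
    rw [RY_apply] at h1 h2
    linarith
  · change RZ 2 1 d = 0 at h1
    change RZ 2 (-1) d = 0 at h2
    rw [RZ_apply] at h1 h2
    linarith
  · change RZ 3 1 d = 0 at h1
    change RZ 3 (-1) d = 0 at h2
    rw [RZ_apply] at h1 h2
    linarith
  · change RZ 4 1 d = 0 at h1
    change RZ 4 (-1) d = 0 at h2
    rw [RZ_apply] at h1 h2
    linarith

theorem ra_abs (a b c : K) (hc : 0 ≤ c) (h : ¬ |a| = c * |b|) : c * b - 1 * a ≠ 0 ∧ c * b - (-1) * a ≠ 0 := by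
  constructor
  · intro h0
    apply h
    have h1 : a = c * b := by linarith
    rw [h1, abs_mul, abs_of_nonneg hc]
  · intro h0
    apply h
    have h1 : a = -(c * b) := by linarith
    rw [h1, abs_neg, abs_mul, abs_of_nonneg hc]

theorem ra_abs1 (a b : K) (h : ¬ |a| = |b|) : b - 1 * a ≠ 0 ∧ b - (-1) * a ≠ 0 := by
  have := ra_abs a b 1 zero_le_one (by rwa [one_mul])
  rwa [one_mul] at this

end

/-- module RA -/
theorem hRA : StRA := by
  intro K _ _ _ d hc h5 hL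
  have key := ra_four d hc hL PA PB ra_rows (ra_ne d h5)
  refine ⟨?_, ?_, ?_, ?_, ?_⟩
  · by_contra h
    obtain ⟨h1, h2⟩ := ra_abs (d 0) (d 5) 50 (by norm_num) h
    exact key 0 h1 h2
  · by_contra h
    obtain ⟨h1, h2⟩ := ra_abs (d 1 - (d 2 + 3 * d 3 + 9 * d 4)) (d 5) 50 (by norm_num) h
    exact key 1 h1 h2
  · by_contra h
    obtain ⟨h1, h2⟩ := ra_abs1 (d 2) (d 5) h
    exact key 2 h1 h2
  · by_contra h
    obtain ⟨h1, h2⟩ := ra_abs1 (d 3) (d 5) h
    exact key 3 h1 h2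
  · by_contra h
    obtain ⟨h1, h2⟩ := ra_abs1 (d 4) (d 5) h
    exact key 4 h1 h2

end Pool.Agent.Helper16.CX
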